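import Pool.Agent.W965.LU.Stms

/-!
Project LU (helper214 for helper965): consecutive blocks.
-/

namespace Pool.Agent.W214.LU.Split

open Pool.Agent.W965.LU

theorem main : S_SPLIT := by
  intro m b Z hZ
  have hf : {x : ℕ | x ∈ Z}.Finite := Z.finite_toSet
  have hc : hf.toFinset.card = Z.card := by
    congr 1
    ext x
    simp
  have hmem : ∀ n < Z.card, Nat.nth (fun x => x ∈ Z) n ∈ Z := fun n hn =>
    Nat.nth_mem_of_lt_card hf (by rw [hc]; exact hn)
  have hmono : ∀ k l, k < l → l < Z.card →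
      Nat.nth (fun x => x ∈ Z) k < Nat.nth (fun x => x ∈ Z) l := by
    intro k l hkl hl
    exact Nat.nth_strictMonoOn hf (by rw [hc]; exact Set.mem_Iio.2 (hkl.trans hl))
      (by rw [hc]; exact Set.mem_Iio.2 hl) hkl
  have hle : ∀ i < m, (i + 1) * b ≤ Z.card := fun i hi =>
    (Nat.mul_le_mul_right b hi).trans hZ
  refine ⟨fun i => (Finset.Ico (i * b) ((i + 1) * b)).image (Nat.nth (fun x => x ∈ Z)),
    fun i hi => ⟨?_, ?_⟩, ?_⟩
  · intro x hx
    obtain ⟨k, hk, rfl⟩ := Finset.mem_image.1 hx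
    exact hmem k ((Finset.mem_Ico.1 hk).2.trans_le (hle i hi))
  · rw [Finset.card_image_of_injOn, Nat.card_Ico, ← Nat.sub_mul]
    · simp
    · intro k hk l hl hkl
      have hk := (Finset.mem_Ico.1 (Finset.mem_coe.1 hk)).2.trans_le (hle i hi)
      have hl := (Finset.mem_Ico.1 (Finset.mem_coe.1 hl)).2.trans_le (hle i hi)
      rcases lt_trichotomy k l with h | h | h
      · exact absurd hkl (hmono k l h hl).ne
      · exact h
      · exact absurd hkl.symm (hmono l k h hk).ne
  · intro i j hij hj x hx y hy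
    obtain ⟨k, hk, rfl⟩ := Finset.mem_image.1 hx
    obtain ⟨l, hl, rfl⟩ := Finset.mem_image.1 hy
    rw [Finset.mem_Ico] at hk hl
    have h1 : (i + 1) * b ≤ j * b := Nat.mul_le_mul_right b hij
    exact hmono k l (by omega) (hl.2.trans_le (hle j hj))

end Pool.Agent.W214.LU.Split
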